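import Pool.Agent.Helper52_ABB.E6Stmts2
import Pool.Agent.Helper70_ABA.Trip

/-! # CHN: the chain of planes of a relation of length six (MP_d857f1_al, part B) -/

set_option autoImplicit false

namespace Pool.Agent.ABA.B.H71

open Knd Pool.Agent.ABA Pool.Agent.ABA.B Pool.Agent.ABA.B.TG Pool.Agent.ABA.B.H17
  Pool.Agent.ABA.B.H89 Pool.Agent.ABA.B.H49 Pool.Agent.ABA.B.H52

/-- partial products -/
def pr {K : Type} [Group K] (z : ℕ → K) : ℕ → K
  | 0 => 1
  | i + 1 => pr z i * z i

theorem pr_per {K : Type} [Group K] (z : ℕ → K) (h1 : pr z 6 = 1) (hz : ∀ i, z (i + 6) = z i) :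
    ∀ i, pr z (i + 6) = pr z i
  | 0 => by rw [Nat.zero_add, h1]; rfl
  | i + 1 => by
    have h : pr z (i + 1 + 6) = pr z (i + 6) * z (i + 6) := rfl
    rw [h, pr_per z h1 hz i, hz i]
    rfl

section

variable {G : Type} [Group G] {A B : Subgroup G} {g : G}
variable (hg : ¬ IsABA A B g) (hgeo : Geo A B) (hι : Function.Injective (Pι A B g))

theorem chn : ChnStmt hg hgeo hι := by
  intro h x₁ y₁ x₂ y₂ x₃ y₃ hx1 hy1 hx2 hy2 hx3 hy3 nx1 ny1 nx2 ny2 nx3 ny3 hrel hdis
  -- the six factors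
  set q : ℕ → PP A B g := fun i => if i % 2 = 0 then 1 else h with hq
  set w : ℕ → PP A B g := fun i =>
    ![x₁, y₁, x₂, y₂, x₃, y₃] ⟨i % 6, Nat.mod_lt _ (by norm_num)⟩ with hw
  set z : ℕ → PP A B g := fun i => q i * w i * (q i)⁻¹ with hz
  have hq2 : ∀ i, q (i + 2) = q i := by
    intro i; simp only [hq]; rw [Nat.add_mod_right]
  have hq6 : ∀ i, q (i + 6) = q i := by
    intro i; rw [show i + 6 = i + 2 + 2 + 2 from rfl, hq2, hq2, hq2]
  have hw6 : ∀ i, w (i + 6) = w i := by
    intro i; simp only [hw]; congr 1; simp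
  have hz6 : ∀ i, z (i + 6) = z i := by
    intro i; simp only [hz]; rw [hq6, hw6]
  have hwA : ∀ i, w i ∈ PA A B g := by
    intro i
    have key : ∀ j : Fin 6, (![x₁, y₁, x₂, y₂, x₃, y₃] : Fin 6 → PP A B g) j ∈ PA A B g := by
      intro j; fin_cases j
      exacts [hx1, hy1, hx2, hy2, hx3, hy3]
    exact key _
  have hwn : ∀ i, w i ≠ 1 := by
    intro i
    have key : ∀ j : Fin 6, (![x₁, y₁, x₂, y₂, x₃, y₃] : Fin 6 → PP A B g) j ≠ 1 := by
      intro j; fin_cases j
      exacts [nx1, ny1, nx2, ny2, nx3, ny3]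
    exact key _
  have h6 : pr z 6 = 1 := by
    have e : pr z 6 = 1 * z 0 * z 1 * z 2 * z 3 * z 4 * z 5 := rfl
    have e0 : z 0 = x₁ := by simp [hz, hq, hw]
    have e1 : z 1 = h * y₁ * h⁻¹ := by simp [hz, hq, hw]
    have e2 : z 2 = x₂ := by simp [hz, hq, hw]
    have e3 : z 3 = h * y₂ * h⁻¹ := by simp [hz, hq, hw]
    have e4 : z 4 = x₃ := by simp [hz, hq, hw]
    have e5 : z 5 = h * y₃ * h⁻¹ := by simp [hz, hq, hw]
    rw [e, e0, e1, e2, e3, e4, e5, one_mul, hrel]
  have hp6 := pr_per z h6 hz6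
  -- the factors stabilise the planes
  have hzs : ∀ i, z i • (plane (q i) : Car A B g) = plane (q i) := by
    intro i
    rw [smul_plane, plane_eq]
    simp only [hz]
    have : (q i * w i * (q i)⁻¹ * q i)⁻¹ * q i = (w i)⁻¹ := by group
    rw [this]
    exact Subgroup.inv_mem _ (hwA i)
  have hzs' : ∀ i, (z i)⁻¹ • (plane (q i) : Car A B g) = plane (q i) := by
    intro i
    rw [inv_smul_eq_iff, hzs]
  have hqd : ∀ i, dCC hg hgeo hι (plane (q i)) (plane (q (i + 1))) =
      dCC hg hgeo hι (plane 1) (plane h) := by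
    intro i
    rcases Nat.mod_two_eq_zero_or_one i with h0 | h0
    · have a1 : q i = 1 := by simp [hq, h0]
      have a2 : q (i + 1) = h := by
        have : (i + 1) % 2 = 1 := by omega
        simp [hq, this]
      rw [a1, a2]
    · have a1 : q i = h := by simp [hq, h0]
      have a2 : q (i + 1) = 1 := by
        have : (i + 1) % 2 = 0 := by omega
        simp [hq, this]
      rw [a1, a2, dCC_comm]
  refine ⟨fun i => pr z i • plane (q i), fun i => pr z i * z i * (pr z i)⁻¹,
    dCC hg hgeo hι (plane 1) (plane h), ?_, ?_, ?_, ?_, ?_, ?_, ?_, ?_⟩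
  · intro i
    change pr z (i + 6) • plane (q (i + 6)) = pr z i • plane (q i)
    rw [hp6, hq6]
  · intro i
    change pr z (i + 6) * z (i + 6) * (pr z (i + 6))⁻¹ = pr z i * z i * (pr z i)⁻¹
    rw [hp6, hz6]
  · intro i; exact ⟨_, smul_plane _ _⟩
  · intro i
    change (pr z i * z i * (pr z i)⁻¹) • (pr z i • plane (q i)) = pr z i • plane (q i)
    rw [mul_smul, inv_smul_smul, mul_smul, hzs]
  · intro i
    change pr z i * z i * (pr z i)⁻¹ ≠ 1
    intro h0
    have h1 : z i = 1 := by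
      have h2 : z i = (pr z i)⁻¹ * (pr z i * z i * (pr z i)⁻¹) * pr z i := by group
      rw [h2, h0]; group
    have h3 : w i = 1 := by
      have h2 : w i = (q i)⁻¹ * z i * q i := by simp only [hz]; group
      rw [h2, h1]; group
    exact hwn i h3
  · intro i
    change (pr z i * z i * z (i + 1) * (pr z i * z i)⁻¹) • (pr z i • plane (q i)) =
      (pr z i * z i * z (i + 1)) • plane (q (i + 2))
    have e1 : (pr z i * z i * z (i + 1) * (pr z i * z i)⁻¹) • (pr z i • plane (q i) : Car A B g) =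
        (pr z i * z i * z (i + 1)) • ((z i)⁻¹ • plane (q i)) := by
      rw [← mul_smul, ← mul_smul]
      congr 1
      group
    rw [hq2, e1, hzs']
  · intro i
    change dCC hg hgeo hι (pr z i • plane (q i)) ((pr z i * z i) • plane (q (i + 1))) = _
    rw [← hqd i]
    have h1 : (pr z i • plane (q i) : Car A B g) = (pr z i * z i) • plane (q i) := by
      rw [mul_smul, hzs]
    rw [h1, dCC_smul]
  · rw [Nat.one_le_iff_ne_zero]
    intro h0
    obtain ⟨v, h1, h2⟩ := dCC_eq_zero.1 h0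
    exact hdis v h1 h2

end

end Pool.Agent.ABA.B.H71
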